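import Pool.Agent.helper76.FG.Spec

set_option autoImplicit false

namespace Pool.Agent.FG

theorem NRM_intCoprime_of_primes (a b : ℤ) (h : ∀ p : ℕ, p.Prime → (p : ℤ) ∣ a → (p : ℤ) ∣ b → False) : IsCoprime a b := by
  rw [Int.isCoprime_iff_gcd_eq_one]
  by_contra hne
  obtain ⟨p, hp, hd⟩ := Nat.exists_prime_and_dvd hne
  have h1 : (p : ℤ) ∣ a := (Int.natCast_dvd_natCast.mpr hd).trans (Int.gcd_dvd_left ..)
  have h2 : (p : ℤ) ∣ b := (Int.natCast_dvd_natCast.mpr hd).trans (Int.gcd_dvd_right ..)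
  exact h p hp h1 h2

theorem NRM : NRM_stmt := by
  intro k S A B u V hV hu hS huV hAB
  by_cases hk : k = 0
  · subst hk
    exact ⟨S, fun i => i.elim0, fun i => i.elim0⟩
  have hne : (Finset.univ : Finset (Fin k)).Nonempty := ⟨⟨0, Nat.pos_of_ne_zero hk⟩, Finset.mem_univ _⟩
  obtain ⟨q, hq, hg⟩ := Finset.extract_gcd S hne
  have hq' : ∀ i, S i = Finset.univ.gcd S * q i := fun i => hq i (Finset.mem_univ i)
  set d := Finset.univ.gcd S with hd
  let i0 : Fin k := ⟨0, Nat.pos_of_ne_zero hk⟩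
  have hdpos : 0 < d := by
    rcases Nat.eq_zero_or_pos d with h | h
    · have h1 := hq' i0
      have h2 := hS i0
      rw [h] at h1
      omega
    · exact h
  have hqpos : ∀ i, 1 ≤ q i := by
    intro i
    rcases Nat.eq_zero_or_pos (q i) with h | h
    · have h1 := hq' i
      have h2 := hS i
      rw [h] at h1
      omega
    · exact h
  have hAq : ∀ i j, A i j * q i = B i j * q j := by
    intro i j
    have h := (hAB i j).2.1
    rw [hq' i, hq' j] at h
    have h1 : d * (A i j * q i) = d * (B i j * q j) := by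
      calc d * (A i j * q i) = A i j * (d * q i) := by ring
        _ = B i j * (d * q j) := h
        _ = d * (B i j * q j) := by ring
    exact Nat.eq_of_mul_eq_mul_left hdpos h1
  have hpr : ∀ (p : ℕ), p.Prime → ∀ i, p ∣ q i → ∃ j, p ∣ B i j := by
    intro p hp i hpi
    by_contra hcon
    push Not at hcon
    have hall : ∀ j, p ∣ q j := by
      intro j
      have h1 : p ∣ B i j * q j := by rw [← hAq i j]; exact Dvd.dvd.mul_left hpi _
      rcases hp.dvd_mul.mp h1 with h | h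
      · exact absurd h (hcon j)
      · exact h
    have h2 : p ∣ Finset.univ.gcd q := Finset.dvd_gcd (fun j _ => hall j)
    rw [hg] at h2
    exact hp.one_lt.ne' (Nat.dvd_one.mp h2)
  have hc1 : ∀ i, IsCoprime ((q i : ℕ) : ℤ) (V : ℤ) := by
    intro i
    apply NRM_intCoprime_of_primes
    intro p hp h1 h2
    have h1' : p ∣ q i := Int.natCast_dvd_natCast.mp h1
    obtain ⟨j, hj⟩ := hpr p hp i h1'
    have h3 : (p : ℤ) ∣ (A i j : ℤ) - B i j := h2.trans (hAB i j).2.2.1
    have h4 : (p : ℤ) ∣ (B i j : ℤ) := Int.natCast_dvd_natCast.mpr hj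
    have h5 : (p : ℤ) ∣ (A i j : ℤ) := by
      have := dvd_add h3 h4
      simpa using this
    have h6 : p ∣ A i j := Int.natCast_dvd_natCast.mp h5
    exact Nat.Prime.not_coprime_iff_dvd.mpr ⟨p, hp, h6, hj⟩ (hAB i j).1
  have hc2 : ∀ i j, (V : ℤ) ∣ (q i : ℤ) - q j := by
    intro i j
    have hcop : IsCoprime (V : ℤ) (A i j : ℤ) := by
      apply NRM_intCoprime_of_primes
      intro p hp h1 h2
      have h3 : (p : ℤ) ∣ (A i j : ℤ) - B i j := h1.trans (hAB i j).2.2.1
      have h4 : (p : ℤ) ∣ (B i j : ℤ) := by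
        have := dvd_sub h2 h3
        simpa using this
      exact Nat.Prime.not_coprime_iff_dvd.mpr ⟨p, hp, Int.natCast_dvd_natCast.mp h2, Int.natCast_dvd_natCast.mp h4⟩ (hAB i j).1
    apply hcop.dvd_of_dvd_mul_left
    have h5 : (A i j : ℤ) * q i = B i j * q j := by exact_mod_cast hAq i j
    have h6 : (A i j : ℤ) * ((q i : ℤ) - q j) = -(((A i j : ℤ) - B i j) * q j) := by linear_combination h5
    rw [h6]
    exact (Dvd.dvd.mul_right (hAB i j).2.2.1 _).neg_right
  have hc3 : ∀ i, IsCoprime u ((q i : ℕ) : ℤ) := by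
    intro i
    apply NRM_intCoprime_of_primes
    intro p hp h1 h2
    obtain ⟨j, hj⟩ := hpr p hp i (Int.natCast_dvd_natCast.mp h2)
    have h3 : (p : ℤ) ∣ ((A i j * B i j : ℕ) : ℤ) := Int.natCast_dvd_natCast.mpr (Dvd.dvd.mul_left hj _)
    have h4 := (hAB i j).2.2.2.isUnit_of_dvd' h1 h3
    exact (Nat.prime_iff_prime_int.mp hp).not_isUnit h4
  obtain ⟨a, b, hab⟩ : IsCoprime (u * (q i0 : ℤ)) (V : ℤ) := IsCoprime.mul_left huV (hc1 i0)
  set N : ℤ := |u * a * (1 - q i0)| with hN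
  set x : ℤ := a * (1 - q i0) + V * u * N with hx
  have hux : 0 ≤ u * x := by
    have h1 : u * x = u * a * (1 - q i0) + (V : ℤ) * (u * u) * N := by rw [hx]; ring
    have h2 : -N ≤ u * a * (1 - q i0) := neg_abs_le _
    have hN0 : 0 ≤ N := abs_nonneg _
    have h3 : (1 : ℤ) ≤ u * u := by
      have : 0 < u * u := mul_self_pos.mpr hu
      omega
    have h4 : (1 : ℤ) ≤ V := by exact_mod_cast hV
    have h5 : (1 : ℤ) ≤ (V : ℤ) * (u * u) := by nlinarith
    nlinarith
  set σ : ℤ := 1 + u * x with hσ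
  have hσ1 : 1 ≤ σ := by omega
  have hσ0 : ((σ.toNat : ℕ) : ℤ) = σ := Int.toNat_of_nonneg (by omega)
  have hσV : (V : ℤ) ∣ σ * q i0 - 1 := by
    refine ⟨-b * (1 - q i0) + u * u * N * q i0, ?_⟩
    rw [hσ, hx]
    linear_combination (1 - (q i0 : ℤ)) * hab
  refine ⟨fun i => σ.toNat * q i, ?_, ?_⟩
  · intro i
    refine ⟨?_, ?_, ?_⟩
    · have h1 : 1 ≤ σ.toNat := by omega
      exact Nat.mul_pos h1 (hqpos i)
    · have h1 : (((σ.toNat * q i : ℕ)) : ℤ) - 1 = (σ * q i0 - 1) + σ * ((q i : ℤ) - q i0) := by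
        rw [Nat.cast_mul, hσ0]; ring
      show (V : ℤ) ∣ (((σ.toNat * q i : ℕ)) : ℤ) - 1
      rw [h1]
      exact dvd_add hσV (Dvd.dvd.mul_left (hc2 i i0) _)
    · show IsCoprime u (((σ.toNat * q i : ℕ)) : ℤ)
      rw [Nat.cast_mul, hσ0]
      refine IsCoprime.mul_right ⟨-x, 1, ?_⟩ (hc3 i)
      rw [hσ]; ring
  · intro i j
    show A i j * (σ.toNat * q i) = B i j * (σ.toNat * q j)
    have h := hAq i j
    calc A i j * (σ.toNat * q i) = σ.toNat * (A i j * q i) := by ring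
      _ = σ.toNat * (B i j * q j) := by rw [h]
      _ = B i j * (σ.toNat * q j) := by ring

end Pool.Agent.FG
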